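import Mathlib

set_option autoImplicit false
set_option linter.unusedTactic false
set_option linter.unreachableTactic false
set_option linter.unusedSectionVars false
set_option linter.unusedVariables false

/-!
# Saturation numbers of the cycle families `C_[4,r]`

We disprove the conjecture `sat(n, C_[4,r]) = ⌈5n/4 - 3/2⌉` (for all large `n`) for every `r ≥ 6`.

The graph: a cycle of length `r + 1` through a vertex `0`, together with `m` triangles glued at
`0`, and leaves attached to (some of) the `2m` other vertices of the triangles.  It has no cycle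
of length in `[4, r]`, any two non-adjacent vertices are joined by a path of length between `3`
and `r - 1`, and it has `n + m` edges.
-/

namespace Pool.Agent.Results.MP_50682e_co.CycleFamilySat

open SimpleGraph

/-- `G` is `C_I`-saturated: it contains no cycle whose length is in `I`, but joining any two
distinct non-adjacent vertices by a new edge creates one. -/
def IsSaturated {V : Type*} (I : Set ℕ) (G : SimpleGraph V) : Prop :=
  (∀ l ∈ I, ¬ cycleGraph l ⊑ G) ∧
    ∀ x y : V, x ≠ y → ¬ G.Adj x y → ∃ l ∈ I, cycleGraph l ⊑ G ⊔ edge x y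

/-- The saturation number `sat(n, C_I)`: the least number of edges of a `C_I`-saturated graph on
`n` vertices. -/
noncomputable def sat (n : ℕ) (I : Set ℕ) : ℕ :=
  sInf {m : ℕ | ∃ G : SimpleGraph (Fin n), IsSaturated I G ∧ G.edgeSet.ncard = m}

/-! ### A criterion for containing a cycle -/

theorem contains_cycle {V : Type*} {G : SimpleGraph V} {l : ℕ} (hl : 3 ≤ l) (f : ℕ → V)
    (hinj : ∀ i < l, ∀ j < l, f i = f j → i = j)
    (hadj : ∀ i, i + 1 < l → G.Adj (f i) (f (i + 1)))
    (hlast : G.Adj (f (l - 1)) (f 0)) : cycleGraph l ⊑ G := by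
  have key : ∀ u v : Fin l, (u - v).val = 1 → G.Adj (f v.val) (f u.val) := by
    intro u v h
    have hu := u.isLt
    have hv := v.isLt
    rw [Fin.sub_def] at h
    simp only at h
    by_cases hlt : v.val ≤ u.val
    · have h1 : l - v.val + u.val = (u.val - v.val) + l := by omega
      rw [h1, Nat.add_mod_right, Nat.mod_eq_of_lt (by omega)] at h
      have h2 : u.val = v.val + 1 := by omega
      rw [h2]
      exact hadj _ (by omega)
    · have h1 : l - v.val + u.val < l := by omega
      rw [Nat.mod_eq_of_lt h1] at h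
      have h2 : v.val = l - 1 := by omega
      have h3 : u.val = 0 := by omega
      rw [h2, h3]
      exact hlast
  refine ⟨⟨⟨fun i => f i.val, ?_⟩, ?_⟩⟩
  · intro u v huv
    rcases cycleGraph_adj'.mp huv with h | h
    · exact (key u v h).symm
    · exact key v u h
  · intro u v huv
    exact Fin.ext (hinj _ u.isLt _ v.isLt huv)

/-! ### The graph -/

/-- One orientation of the adjacency relation (vertices are natural numbers: `0, …, r` is the long
cycle, `r + 1, …, r + 2m` are the triangle vertices, `t + 2m` is the leaf at `t`). -/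
def arc (r m a b : ℕ) : Prop :=
  (b = a + 1 ∧ b ≤ r) ∨ (a = 0 ∧ b = r) ∨ (a = 0 ∧ r < b ∧ b ≤ r + 2 * m) ∨
    (r < a ∧ b = a + 1 ∧ b ≤ r + 2 * m ∧ (a - r) % 2 = 1) ∨
    (r < a ∧ a ≤ r + 2 * m ∧ b = a + 2 * m)

/-- The graph on `n` vertices. -/
def gr (r m n : ℕ) (hr : 6 ≤ r) : SimpleGraph (Fin n) where
  Adj x y := arc r m x.val y.val ∨ arc r m y.val x.val
  symm := ⟨fun _ _ h => h.symm⟩
  loopless := ⟨by
    intro x h
    unfold arc at h
    omega⟩

theorem gr_adj {r m n : ℕ} {hr : 6 ≤ r} {x y : Fin n} :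
    (gr r m n hr).Adj x y ↔ (arc r m x.val y.val ∨ arc r m y.val x.val) := Iff.rfl

/-- Path criterion for the saturation. -/
theorem closes {r m n : ℕ} (hr : 6 ≤ r) (x y : Fin n) (hxy : x ≠ y) (l : ℕ) (hl3 : 4 ≤ l)
    (hlr : l ≤ r) (f : ℕ → ℕ) (hn : ∀ i < l, f i < n)
    (hinj : ∀ i < l, ∀ j < l, f i = f j → i = j)
    (hadj : ∀ i, i + 1 < l → arc r m (f i) (f (i + 1)) ∨ arc r m (f (i + 1)) (f i))
    (h0 : f 0 = x.val) (hlast : f (l - 1) = y.val) :
    ∃ l ∈ Set.Icc 4 r, cycleGraph l ⊑ (gr r m n hr) ⊔ edge x y := by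
  refine ⟨l, ⟨hl3, hlr⟩, ?_⟩
  have hnpos : 0 < n := lt_of_le_of_lt (Nat.zero_le _) x.isLt
  refine contains_cycle (by omega) (fun i => if h : f i < n then ⟨f i, h⟩ else ⟨0, hnpos⟩) ?_ ?_ ?_
  · intro i hi j hj hij
    have h1 := hn i hi
    have h2 := hn j hj
    simp only [h1, h2, dif_pos, Fin.mk.injEq] at hij
    exact hinj i hi j hj hij
  · intro i hi
    have h1 := hn i (by omega)
    have h2 := hn (i + 1) hi
    simp only [h1, h2, dif_pos]
    left
    exact hadj i hi
  · have h1 := hn (l - 1) (by omega)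
    have h2 := hn 0 (by omega)
    simp only [h1, h2, dif_pos]
    right
    rw [edge_adj]
    refine ⟨Or.inr ⟨?_, ?_⟩, ?_⟩
    · exact Fin.ext hlast
    · exact Fin.ext h0
    · intro h
      apply hxy
      rw [Fin.mk.injEq] at h
      exact Fin.ext (by omega)

theorem edge_swap {V : Type*} (x y : V) : edge x y = edge y x := by
  unfold edge
  rw [Sym2.eq_swap]

section cases

variable {r m n : ℕ} (hr : 6 ≤ r) (h1 : r + 1 + 2 * m ≤ n) (h2 : n ≤ r + 1 + 4 * m)
  (x y : Fin n) (hxy : x ≠ y)

include h1 h2 hxy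

theorem core_core (hY : y.val ≤ r) (hlt : x.val < y.val) (hne1 : y.val ≠ x.val + 1)
    (hne2 : ¬ (x.val = 0 ∧ y.val = r)) :
    ∃ l ∈ Set.Icc 4 r, cycleGraph l ⊑ (gr r m n hr) ⊔ edge x y := by
  by_cases hd : y.val - x.val = 2
  · -- go around
    refine closes hr x y hxy r (by omega) le_rfl
      (fun i => if i ≤ x.val then x.val - i else r + 1 + x.val - i) ?_ ?_ ?_ ?_ ?_
    · intro i hi
      split_ifs <;> omega
    · intro i hi j hj hij
      split_ifs at hij <;> omega
    · intro i hi
      unfold arc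
      split_ifs <;> first
        | exact Or.inl (Or.inl (by omega))
        | exact Or.inr (Or.inl (by omega))
        | exact Or.inl (Or.inr (Or.inl (by omega)))
        | exact Or.inr (Or.inr (Or.inl (by omega)))
        | exact Or.inl (Or.inr (Or.inr (Or.inl (by omega))))
        | exact Or.inr (Or.inr (Or.inr (Or.inl (by omega))))
        | exact Or.inl (Or.inr (Or.inr (Or.inr (Or.inl (by omega)))))
        | exact Or.inr (Or.inr (Or.inr (Or.inr (Or.inl (by omega)))))
        | exact Or.inl (Or.inr (Or.inr (Or.inr (Or.inr (by omega)))))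
        | exact Or.inr (Or.inr (Or.inr (Or.inr (Or.inr (by omega)))))
        | (exfalso; omega)
    · split_ifs <;> omega
    · split_ifs <;> omega
  · refine closes hr x y hxy (y.val - x.val + 1) (by omega) (by omega)
      (fun i => x.val + i) ?_ ?_ ?_ ?_ ?_
    · intro i hi
      omega
    · intro i hi j hj hij
      omega
    · intro i hi
      unfold arc
      exact Or.inl (Or.inl (by omega))
    · omega
    · omega

theorem core_tri1 (hX : x.val ≤ r) (hX0 : x.val ≠ 0) (hY1 : r < y.val) (hY2 : y.val ≤ r + 2 * m)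
    (hside : x.val ≤ r + 1 - x.val) :
    ∃ l ∈ Set.Icc 4 r, cycleGraph l ⊑ (gr r m n hr) ⊔ edge x y := by
  obtain ⟨p, hp⟩ : ∃ p, p = if (y.val - r) % 2 = 1 then y.val + 1 else y.val - 1 := ⟨_, rfl⟩
  have hp' : ((y.val - r) % 2 = 1 ∧ p = y.val + 1) ∨
      ((p - r) % 2 = 1 ∧ p + 1 = y.val) := by
    split_ifs at hp <;> omega
  have hp2 : r < p ∧ p ≤ r + 2 * m := by omega
  clear hp
  refine closes hr x y hxy (x.val + 3) (by omega) (by omega)
    (fun i => if i ≤ x.val then x.val - i else if i = x.val + 1 then p else y.val) ?_ ?_ ?_ ?_ ?_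
  · intro i hi
    split_ifs <;> omega
  · intro i hi j hj hij
    split_ifs at hij <;> omega
  · intro i hi
    unfold arc
    rcases hp' with hp' | hp' <;> split_ifs <;> first
      | exact Or.inl (Or.inl (by omega))
      | exact Or.inr (Or.inl (by omega))
      | exact Or.inl (Or.inr (Or.inl (by omega)))
      | exact Or.inr (Or.inr (Or.inl (by omega)))
      | exact Or.inl (Or.inr (Or.inr (Or.inl (by omega))))
      | exact Or.inr (Or.inr (Or.inr (Or.inl (by omega))))
      | exact Or.inl (Or.inr (Or.inr (Or.inr (Or.inl (by omega)))))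
      | exact Or.inr (Or.inr (Or.inr (Or.inr (Or.inl (by omega)))))
      | exact Or.inl (Or.inr (Or.inr (Or.inr (Or.inr (by omega)))))
      | exact Or.inr (Or.inr (Or.inr (Or.inr (Or.inr (by omega)))))
      | (exfalso; omega)
  · split_ifs <;> omega
  · split_ifs <;> omega

theorem core_tri2 (hX : x.val ≤ r) (hX0 : x.val ≠ 0) (hY1 : r < y.val) (hY2 : y.val ≤ r + 2 * m)
    (hside : ¬ x.val ≤ r + 1 - x.val) :
    ∃ l ∈ Set.Icc 4 r, cycleGraph l ⊑ (gr r m n hr) ⊔ edge x y := by
  obtain ⟨p, hp⟩ : ∃ p, p = if (y.val - r) % 2 = 1 then y.val + 1 else y.val - 1 := ⟨_, rfl⟩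
  have hp' : ((y.val - r) % 2 = 1 ∧ p = y.val + 1) ∨
      ((p - r) % 2 = 1 ∧ p + 1 = y.val) := by
    split_ifs at hp <;> omega
  have hp2 : r < p ∧ p ≤ r + 2 * m := by omega
  clear hp
  refine closes hr x y hxy (r + 1 - x.val + 3) (by omega) (by omega)
    (fun i => if i < r + 1 - x.val then x.val + i else if i = r + 1 - x.val then 0 else
      if i = r + 1 - x.val + 1 then p else y.val) ?_ ?_ ?_ ?_ ?_
  · intro i hi
    split_ifs <;> omega
  · intro i hi j hj hij
    split_ifs at hij <;> omega
  · intro i hi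
    unfold arc
    rcases hp' with hp' | hp' <;> split_ifs <;> first
      | exact Or.inl (Or.inl (by omega))
      | exact Or.inr (Or.inl (by omega))
      | exact Or.inl (Or.inr (Or.inl (by omega)))
      | exact Or.inr (Or.inr (Or.inl (by omega)))
      | exact Or.inl (Or.inr (Or.inr (Or.inl (by omega))))
      | exact Or.inr (Or.inr (Or.inr (Or.inl (by omega))))
      | exact Or.inl (Or.inr (Or.inr (Or.inr (Or.inl (by omega)))))
      | exact Or.inr (Or.inr (Or.inr (Or.inr (Or.inl (by omega)))))
      | exact Or.inl (Or.inr (Or.inr (Or.inr (Or.inr (by omega)))))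
      | exact Or.inr (Or.inr (Or.inr (Or.inr (Or.inr (by omega)))))
      | (exfalso; omega)
  · split_ifs <;> omega
  · split_ifs <;> omega

theorem zero_leaf (hX0 : x.val = 0) (hY1 : r + 2 * m < y.val) :
    ∃ l ∈ Set.Icc 4 r, cycleGraph l ⊑ (gr r m n hr) ⊔ edge x y := by
  obtain ⟨q, hq⟩ : ∃ q, y.val = q + 2 * m := ⟨y.val - 2 * m, by omega⟩
  have hy := y.isLt
  obtain ⟨p, hp⟩ : ∃ p, p = if (q - r) % 2 = 1 then q + 1 else q - 1 := ⟨_, rfl⟩
  have hp' : ((q - r) % 2 = 1 ∧ p = q + 1) ∨ ((p - r) % 2 = 1 ∧ p + 1 = q) := by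
    split_ifs at hp <;> omega
  have hp2 : r < p ∧ p ≤ r + 2 * m := by omega
  clear hp
  refine closes hr x y hxy 4 (by omega) (by omega)
    (fun i => if i = 0 then 0 else if i = 1 then p else
      if i = 2 then q else y.val) ?_ ?_ ?_ ?_ ?_
  · intro i hi
    split_ifs <;> omega
  · intro i hi j hj hij
    split_ifs at hij <;> omega
  · intro i hi
    unfold arc
    rcases hp' with hp' | hp' <;> split_ifs <;> first
      | exact Or.inl (Or.inl (by omega))
      | exact Or.inr (Or.inl (by omega))
      | exact Or.inl (Or.inr (Or.inl (by omega)))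
      | exact Or.inr (Or.inr (Or.inl (by omega)))
      | exact Or.inl (Or.inr (Or.inr (Or.inl (by omega))))
      | exact Or.inr (Or.inr (Or.inr (Or.inl (by omega))))
      | exact Or.inl (Or.inr (Or.inr (Or.inr (Or.inl (by omega)))))
      | exact Or.inr (Or.inr (Or.inr (Or.inr (Or.inl (by omega)))))
      | exact Or.inl (Or.inr (Or.inr (Or.inr (Or.inr (by omega)))))
      | exact Or.inr (Or.inr (Or.inr (Or.inr (Or.inr (by omega)))))
      | (exfalso; omega)
  · simp [hX0]
  · simp

theorem core_leaf1 (hX : x.val ≤ r) (hX0 : x.val ≠ 0) (hY1 : r + 2 * m < y.val)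
    (hside : x.val ≤ r + 1 - x.val) :
    ∃ l ∈ Set.Icc 4 r, cycleGraph l ⊑ (gr r m n hr) ⊔ edge x y := by
  obtain ⟨q, hq⟩ : ∃ q, y.val = q + 2 * m := ⟨y.val - 2 * m, by omega⟩
  have hy := y.isLt
  refine closes hr x y hxy (x.val + 3) (by omega) (by omega)
    (fun i => if i ≤ x.val then x.val - i else if i = x.val + 1 then q else y.val) ?_ ?_ ?_ ?_ ?_
  · intro i hi
    split_ifs <;> omega
  · intro i hi j hj hij
    split_ifs at hij <;> omega
  · intro i hi
    unfold arc
    split_ifs <;> first
      | exact Or.inl (Or.inl (by omega))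
      | exact Or.inr (Or.inl (by omega))
      | exact Or.inl (Or.inr (Or.inl (by omega)))
      | exact Or.inr (Or.inr (Or.inl (by omega)))
      | exact Or.inl (Or.inr (Or.inr (Or.inl (by omega))))
      | exact Or.inr (Or.inr (Or.inr (Or.inl (by omega))))
      | exact Or.inl (Or.inr (Or.inr (Or.inr (Or.inl (by omega)))))
      | exact Or.inr (Or.inr (Or.inr (Or.inr (Or.inl (by omega)))))
      | exact Or.inl (Or.inr (Or.inr (Or.inr (Or.inr (by omega)))))
      | exact Or.inr (Or.inr (Or.inr (Or.inr (Or.inr (by omega)))))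
      | (exfalso; omega)
  · split_ifs <;> omega
  · split_ifs <;> omega

theorem core_leaf2 (hX : x.val ≤ r) (hX0 : x.val ≠ 0) (hY1 : r + 2 * m < y.val)
    (hside : ¬ x.val ≤ r + 1 - x.val) :
    ∃ l ∈ Set.Icc 4 r, cycleGraph l ⊑ (gr r m n hr) ⊔ edge x y := by
  obtain ⟨q, hq⟩ : ∃ q, y.val = q + 2 * m := ⟨y.val - 2 * m, by omega⟩
  have hy := y.isLt
  refine closes hr x y hxy (r + 1 - x.val + 3) (by omega) (by omega)
    (fun i => if i < r + 1 - x.val then x.val + i else if i = r + 1 - x.val then 0 else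
      if i = r + 1 - x.val + 1 then q else y.val) ?_ ?_ ?_ ?_ ?_
  · intro i hi
    split_ifs <;> omega
  · intro i hi j hj hij
    split_ifs at hij <;> omega
  · intro i hi
    unfold arc
    split_ifs <;> first
      | exact Or.inl (Or.inl (by omega))
      | exact Or.inr (Or.inl (by omega))
      | exact Or.inl (Or.inr (Or.inl (by omega)))
      | exact Or.inr (Or.inr (Or.inl (by omega)))
      | exact Or.inl (Or.inr (Or.inr (Or.inl (by omega))))
      | exact Or.inr (Or.inr (Or.inr (Or.inl (by omega))))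
      | exact Or.inl (Or.inr (Or.inr (Or.inr (Or.inl (by omega)))))
      | exact Or.inr (Or.inr (Or.inr (Or.inr (Or.inl (by omega)))))
      | exact Or.inl (Or.inr (Or.inr (Or.inr (Or.inr (by omega)))))
      | exact Or.inr (Or.inr (Or.inr (Or.inr (Or.inr (by omega)))))
      | (exfalso; omega)
  · split_ifs <;> omega
  · split_ifs <;> omega

theorem tri_tri (hX1 : r < x.val) (hlt : x.val < y.val) (hY2 : y.val ≤ r + 2 * m)
    (hne : ¬ (y.val = x.val + 1 ∧ (x.val - r) % 2 = 1)) :
    ∃ l ∈ Set.Icc 4 r, cycleGraph l ⊑ (gr r m n hr) ⊔ edge x y := by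
  obtain ⟨p, hp⟩ : ∃ p, p = if (x.val - r) % 2 = 1 then x.val + 1 else x.val - 1 := ⟨_, rfl⟩
  have hp' : ((x.val - r) % 2 = 1 ∧ p = x.val + 1) ∨
      ((p - r) % 2 = 1 ∧ p + 1 = x.val) := by
    split_ifs at hp <;> omega
  have hp2 : r < p ∧ p ≤ r + 2 * m := by omega
  clear hp
  refine closes hr x y hxy 4 (by omega) (by omega)
    (fun i => if i = 0 then x.val else if i = 1 then p else
      if i = 2 then 0 else y.val) ?_ ?_ ?_ ?_ ?_
  · intro i hi
    split_ifs <;> omega
  · intro i hi j hj hij
    split_ifs at hij <;> omega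
  · intro i hi
    unfold arc
    rcases hp' with hp' | hp' <;> split_ifs <;> first
      | exact Or.inl (Or.inl (by omega))
      | exact Or.inr (Or.inl (by omega))
      | exact Or.inl (Or.inr (Or.inl (by omega)))
      | exact Or.inr (Or.inr (Or.inl (by omega)))
      | exact Or.inl (Or.inr (Or.inr (Or.inl (by omega))))
      | exact Or.inr (Or.inr (Or.inr (Or.inl (by omega))))
      | exact Or.inl (Or.inr (Or.inr (Or.inr (Or.inl (by omega)))))
      | exact Or.inr (Or.inr (Or.inr (Or.inr (Or.inl (by omega)))))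
      | exact Or.inl (Or.inr (Or.inr (Or.inr (Or.inr (by omega)))))
      | exact Or.inr (Or.inr (Or.inr (Or.inr (Or.inr (by omega)))))
      | (exfalso; omega)
  · simp
  · simp

theorem tri_leaf (hX1 : r < x.val) (hX2 : x.val ≤ r + 2 * m) (hY1 : r + 2 * m < y.val)
    (hne : y.val ≠ x.val + 2 * m) :
    ∃ l ∈ Set.Icc 4 r, cycleGraph l ⊑ (gr r m n hr) ⊔ edge x y := by
  obtain ⟨q, hq⟩ : ∃ q, y.val = q + 2 * m := ⟨y.val - 2 * m, by omega⟩
  have hy := y.isLt
  refine closes hr x y hxy 4 (by omega) (by omega)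
    (fun i => if i = 0 then x.val else if i = 1 then 0 else
      if i = 2 then q else y.val) ?_ ?_ ?_ ?_ ?_
  · intro i hi
    split_ifs <;> omega
  · intro i hi j hj hij
    split_ifs at hij <;> omega
  · intro i hi
    unfold arc
    split_ifs <;> first
      | exact Or.inl (Or.inl (by omega))
      | exact Or.inr (Or.inl (by omega))
      | exact Or.inl (Or.inr (Or.inl (by omega)))
      | exact Or.inr (Or.inr (Or.inl (by omega)))
      | exact Or.inl (Or.inr (Or.inr (Or.inl (by omega))))
      | exact Or.inr (Or.inr (Or.inr (Or.inl (by omega))))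
      | exact Or.inl (Or.inr (Or.inr (Or.inr (Or.inl (by omega)))))
      | exact Or.inr (Or.inr (Or.inr (Or.inr (Or.inl (by omega)))))
      | exact Or.inl (Or.inr (Or.inr (Or.inr (Or.inr (by omega)))))
      | exact Or.inr (Or.inr (Or.inr (Or.inr (Or.inr (by omega)))))
      | (exfalso; omega)
  · simp
  · simp

theorem leaf_leaf (hX1 : r + 2 * m < x.val) (hlt : x.val < y.val) :
    ∃ l ∈ Set.Icc 4 r, cycleGraph l ⊑ (gr r m n hr) ⊔ edge x y := by
  obtain ⟨p, hp⟩ : ∃ p, x.val = p + 2 * m := ⟨x.val - 2 * m, by omega⟩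
  obtain ⟨q, hq⟩ : ∃ q, y.val = q + 2 * m := ⟨y.val - 2 * m, by omega⟩
  have hy := y.isLt
  refine closes hr x y hxy 5 (by omega) (by omega)
    (fun i => if i = 0 then x.val else if i = 1 then p else if i = 2 then 0 else
      if i = 3 then q else y.val) ?_ ?_ ?_ ?_ ?_
  · intro i hi
    split_ifs <;> omega
  · intro i hi j hj hij
    split_ifs at hij <;> omega
  · intro i hi
    unfold arc
    split_ifs <;> first
      | exact Or.inl (Or.inl (by omega))
      | exact Or.inr (Or.inl (by omega))
      | exact Or.inl (Or.inr (Or.inl (by omega)))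
      | exact Or.inr (Or.inr (Or.inl (by omega)))
      | exact Or.inl (Or.inr (Or.inr (Or.inl (by omega))))
      | exact Or.inr (Or.inr (Or.inr (Or.inl (by omega))))
      | exact Or.inl (Or.inr (Or.inr (Or.inr (Or.inl (by omega)))))
      | exact Or.inr (Or.inr (Or.inr (Or.inr (Or.inl (by omega)))))
      | exact Or.inl (Or.inr (Or.inr (Or.inr (Or.inr (by omega)))))
      | exact Or.inr (Or.inr (Or.inr (Or.inr (Or.inr (by omega)))))
      | (exfalso; omega)
  · simp
  · simp

end cases

theorem saturating {r m n : ℕ} (hr : 6 ≤ r) (h1 : r + 1 + 2 * m ≤ n) (h2 : n ≤ r + 1 + 4 * m)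
    (x y : Fin n) (hxy : x ≠ y) (hna : ¬ (gr r m n hr).Adj x y) :
    ∃ l ∈ Set.Icc 4 r, cycleGraph l ⊑ (gr r m n hr) ⊔ edge x y := by
  wlog hlt : x.val < y.val generalizing x y with H
  · have hne : x.val ≠ y.val := fun h => hxy (Fin.ext h)
    have := H y x hxy.symm (fun h => hna h.symm) (by omega)
    rwa [edge_swap y x] at this
  rw [gr_adj] at hna
  unfold arc at hna
  by_cases hYc : y.val ≤ r
  · exact core_core hr h1 h2 x y hxy hYc hlt (by omega) (by omega)
  · by_cases hXc : x.val ≤ r
    · by_cases hYt : y.val ≤ r + 2 * m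
      · by_cases hside : x.val ≤ r + 1 - x.val
        · exact core_tri1 hr h1 h2 x y hxy hXc (by omega) (by omega) hYt hside
        · exact core_tri2 hr h1 h2 x y hxy hXc (by omega) (by omega) hYt hside
      · by_cases hX0 : x.val = 0
        · exact zero_leaf hr h1 h2 x y hxy hX0 (by omega)
        · by_cases hside : x.val ≤ r + 1 - x.val
          · exact core_leaf1 hr h1 h2 x y hxy hXc hX0 (by omega) hside
          · exact core_leaf2 hr h1 h2 x y hxy hXc hX0 (by omega) hside
    · by_cases hXt : x.val ≤ r + 2 * m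
      · by_cases hYt : y.val ≤ r + 2 * m
        · exact tri_tri hr h1 h2 x y hxy (by omega) hlt hYt (by omega)
        · exact tri_leaf hr h1 h2 x y hxy (by omega) hXt (by omega) (by omega)
      · exact leaf_leaf hr h1 h2 x y hxy (by omega) hlt

/-! ### No short cycles -/

theorem no_cycle {r m n : ℕ} (hr : 6 ≤ r) (l : ℕ) (h4 : 4 ≤ l) (hlr : l ≤ r) :
    ¬ cycleGraph l ⊑ gr r m n hr := by
  obtain ⟨k, rfl⟩ : ∃ k, l = k + 4 := ⟨l - 4, by omega⟩
  rintro ⟨φ⟩
  -- the values along the cycle
  set g : Fin (k + 4) → ℕ := fun i => (φ i).val with hg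
  have hginj : ∀ i j, g i = g j → i = j := by
    intro i j hij
    exact φ.injective (Fin.ext hij)
  have hgadj : ∀ i : Fin (k + 4), arc r m (g i) (g (i + 1)) ∨ arc r m (g (i + 1)) (g i) := by
    intro i
    have : (cycleGraph (k + 4)).Adj i (i + 1) := by
      refine (cycleGraph_adj (n := k + 2)).mpr (Or.inr ?_)
      exact add_sub_cancel_left i 1
    exact φ.toHom.map_adj this
  have h2ne : ∀ i : Fin (k + 4), i + 1 + 1 ≠ i := by
    intro i h
    have h' : (1 + 1 : Fin (k + 4)) = 0 := by
      have := congrArg (fun z => z - i) h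
      simpa [add_assoc, add_comm, add_left_comm, sub_eq_add_neg] using this
    have h'' := congrArg Fin.val h'
    simp only [Fin.val_add, Fin.val_zero] at h''
    have hv : ((1 : Fin (k + 4)).val) = 1 := Fin.val_one (k + 2)
    rw [hv, Nat.mod_eq_of_lt (by omega)] at h''
    omega
  have h3ne : ∀ i : Fin (k + 4), i + 1 + 1 + 1 ≠ i := by
    intro i h
    have h' : (1 + 1 + 1 : Fin (k + 4)) = 0 := by
      have := congrArg (fun z => z - i) h
      simpa [add_assoc, add_comm, add_left_comm, sub_eq_add_neg] using this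
    have h'' := congrArg Fin.val h'
    simp only [Fin.val_add, Fin.val_zero] at h''
    have hv : ((1 : Fin (k + 4)).val) = 1 := Fin.val_one (k + 2)
    rw [hv, Nat.mod_eq_of_lt (show 1 + 1 < k + 4 by omega), Nat.mod_eq_of_lt (by omega)] at h''
    omega
  -- no leaves
  have hA : ∀ i : Fin (k + 4), g i ≤ r + 2 * m := by
    intro i
    by_contra hcon
    have e1 := hgadj i
    have e2 := hgadj (i - 1)
    have e3 : i - 1 + 1 = i := by simp
    rw [e3] at e2
    have hne : g (i - 1) ≠ g (i + 1) := by
      intro h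
      have h' := hginj _ _ h
      have h'' := congrArg (fun z => z + 1) h'
      simp only [e3] at h''
      exact h2ne i h''.symm
    unfold arc at e1 e2
    omega
  -- no triangle vertices
  have hB : ∀ i : Fin (k + 4), g i ≤ r := by
    intro i
    by_contra hcon
    have e1 := hgadj i
    have e2 := hgadj (i - 1)
    have e3 : i - 1 + 1 = i := by simp
    rw [e3] at e2
    have e4 := hgadj (i + 1)
    have e5 := hgadj (i - 1 - 1)
    have e6 : i - 1 - 1 + 1 = i - 1 := by simp
    rw [e6] at e5
    have a0 := hA i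
    have a1 := hA (i + 1)
    have a2 := hA (i - 1)
    have a3 := hA (i + 1 + 1)
    have a4 := hA (i - 1 - 1)
    have n1 : g (i - 1) ≠ g (i + 1) := by
      intro h
      have h' := hginj _ _ h
      have h'' := congrArg (fun z => z + 1) h'
      simp only [e3] at h''
      exact h2ne i h''.symm
    have n2 : g (i + 1 + 1) ≠ g i := fun h => h2ne i (hginj _ _ h)
    have n3 : g (i - 1 - 1) ≠ g i := by
      intro h
      have h' := hginj _ _ h
      have h'' := congrArg (fun z => z + 1 + 1) h'
      simp only [e3, e6] at h''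
      exact h2ne i h''.symm
    have n4 : g (i + 1 + 1) ≠ g (i - 1) := by
      intro h
      have h' := hginj _ _ h
      have h'' := congrArg (fun z => z + 1) h'
      simp only [e3] at h''
      exact h3ne i h''
    have n5 : g (i - 1 - 1) ≠ g (i + 1) := by
      intro h
      have h' := hginj _ _ h
      have h'' := congrArg (fun z => z + 1 + 1) h'
      simp only [e3, e6] at h''
      exact h3ne i h''.symm
    unfold arc at e1 e2 e4 e5
    omega
  -- closure
  have hC : ∀ i : Fin (k + 4), (g i < r → ∃ j, g j = g i + 1) ∧ (g i = r → ∃ j, g j = 0) := by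
    intro i
    have e1 := hgadj i
    have e2 := hgadj (i - 1)
    have e3 : i - 1 + 1 = i := by simp
    rw [e3] at e2
    have n1 : g (i - 1) ≠ g (i + 1) := by
      intro h
      have h' := hginj _ _ h
      have h'' := congrArg (fun z => z + 1) h'
      simp only [e3] at h''
      exact h2ne i h''.symm
    have b0 := hB i
    have b1 := hB (i + 1)
    have b2 := hB (i - 1)
    unfold arc at e1 e2
    constructor
    · intro hlt
      by_cases h : g (i + 1) = g i + 1
      · exact ⟨_, h⟩
      · refine ⟨i - 1, ?_⟩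
        omega
    · intro heq
      by_cases h : g (i + 1) = 0
      · exact ⟨_, h⟩
      · refine ⟨i - 1, ?_⟩
        omega
  have hD : ∃ j, g j = r := by
    have hstep : ∀ d : ℕ, ∀ i, r - g i = d → ∃ j, g j = r := by
      intro d
      induction d with
      | zero =>
        intro i hi
        exact ⟨i, by have := hB i; omega⟩
      | succ d ih =>
        intro i hi
        obtain ⟨j, hj⟩ := (hC i).1 (by omega)
        exact ih j (by omega)
    exact hstep _ 0 rfl
  have hE : ∃ j, g j = 0 := by
    obtain ⟨j, hj⟩ := hD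
    exact (hC j).2 hj
  have hF : ∀ d : ℕ, d ≤ r → ∃ j, g j = d := by
    intro d
    induction d with
    | zero => intro _; exact hE
    | succ d ih =>
      intro hd
      obtain ⟨j, hj⟩ := ih (by omega)
      obtain ⟨j', hj'⟩ := (hC j).1 (by omega)
      exact ⟨j', by omega⟩
  -- counting
  choose! F hF' using hF
  have hcard : Fintype.card (Fin (r + 1)) ≤ Fintype.card (Fin (k + 4)) := by
    refine Fintype.card_le_of_injective (fun d : Fin (r + 1) => F d.val) ?_
    intro a b hab
    have ha := hF' a.val (by omega)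
    have hb := hF' b.val (by omega)
    simp only at hab
    rw [hab] at ha
    exact Fin.ext (by omega)
  simp only [Fintype.card_fin] at hcard
  omega

/-! ### Number of edges -/

theorem edges_le {r m n : ℕ} (hr : 6 ≤ r) (h1 : r + 1 + 2 * m ≤ n) (h2 : n ≤ r + 1 + 4 * m) :
    (gr r m n hr).edgeSet.ncard ≤ n + m := by
  have hn : 0 < n := by omega
  -- the parent of a vertex
  let par : Fin n → Fin n := fun v =>
    if v.val < r then ⟨(v.val + 1) % n, Nat.mod_lt _ hn⟩ else
    if v.val ≤ r + 2 * m then ⟨0, hn⟩ else ⟨(v.val - 2 * m) % n, Nat.mod_lt _ hn⟩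
  have hsub : (gr r m n hr).edgeSet ⊆
      Set.range (fun v : Fin n => s(v, par v)) ∪
      Set.range (fun i : Fin m => s((⟨(r + 1 + 2 * i.val) % n, Nat.mod_lt _ hn⟩ : Fin n),
        (⟨(r + 2 + 2 * i.val) % n, Nat.mod_lt _ hn⟩ : Fin n))) := by
    intro e
    induction e using Sym2.ind with
    | _ x y =>
      intro he
      rw [mem_edgeSet, gr_adj] at he
      have main : ∀ x y : Fin n, arc r m x.val y.val → s(x, y) ∈
          Set.range (fun v : Fin n => s(v, par v)) ∪
          Set.range (fun i : Fin m => s((⟨(r + 1 + 2 * i.val) % n, Nat.mod_lt _ hn⟩ : Fin n),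
            (⟨(r + 2 + 2 * i.val) % n, Nat.mod_lt _ hn⟩ : Fin n))) := by
        intro x y hxy
        have hx := x.isLt
        have hy := y.isLt
        rcases hxy with h | h | h | h | h
        · left
          refine ⟨x, ?_⟩
          have : par x = y := by
            simp only [par]
            rw [if_pos (by omega)]
            apply Fin.ext
            simp only
            rw [Nat.mod_eq_of_lt (by omega)]
            omega
          simp only [this]
        · left
          refine ⟨y, ?_⟩
          have : par y = x := by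
            simp only [par]
            rw [if_neg (by omega), if_pos (by omega)]
            apply Fin.ext
            simp only
            omega
          simp only [this, Sym2.eq_swap]
        · left
          refine ⟨y, ?_⟩
          have : par y = x := by
            simp only [par]
            rw [if_neg (by omega), if_pos (by omega)]
            apply Fin.ext
            simp only
            omega
          simp only [this, Sym2.eq_swap]
        · right
          refine ⟨⟨(x.val - r) / 2, by omega⟩, ?_⟩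
          have e1 : (⟨(r + 1 + 2 * ((x.val - r) / 2)) % n, Nat.mod_lt _ hn⟩ : Fin n) = x := by
            apply Fin.ext
            simp only
            rw [Nat.mod_eq_of_lt (by omega)]
            omega
          have e2 : (⟨(r + 2 + 2 * ((x.val - r) / 2)) % n, Nat.mod_lt _ hn⟩ : Fin n) = y := by
            apply Fin.ext
            simp only
            rw [Nat.mod_eq_of_lt (by omega)]
            omega
          simp only [e1, e2]
        · left
          refine ⟨y, ?_⟩
          have : par y = x := by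
            simp only [par]
            rw [if_neg (by omega), if_neg (by omega)]
            apply Fin.ext
            simp only
            rw [Nat.mod_eq_of_lt (by omega)]
            omega
          simp only [this, Sym2.eq_swap]
      rcases he with h | h
      · exact main x y h
      · rw [Sym2.eq_swap]
        exact main y x h
  calc (gr r m n hr).edgeSet.ncard ≤ _ := Set.ncard_le_ncard hsub (Set.toFinite _)
    _ ≤ _ := Set.ncard_union_le _ _
    _ ≤ n + m := by
      gcongr
      · rw [← Set.image_univ]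
        refine (Set.ncard_image_le (Set.toFinite _)).trans ?_
        simp [Set.ncard_univ]
      · rw [← Set.image_univ]
        refine (Set.ncard_image_le (Set.toFinite _)).trans ?_
        simp [Set.ncard_univ]

theorem isSaturated_gr {r m n : ℕ} (hr : 6 ≤ r) (h1 : r + 1 + 2 * m ≤ n)
    (h2 : n ≤ r + 1 + 4 * m) : IsSaturated (Set.Icc 4 r) (gr r m n hr) :=
  ⟨fun l hl => no_cycle hr l hl.1 hl.2, fun x y hxy hna => saturating hr h1 h2 x y hxy hna⟩

theorem sat_le {r m n : ℕ} (hr : 6 ≤ r) (h1 : r + 1 + 2 * m ≤ n) (h2 : n ≤ r + 1 + 4 * m) :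
    sat n (Set.Icc 4 r) ≤ n + m := by
  have hmem : (gr r m n hr).edgeSet.ncard ∈ {k : ℕ | ∃ G : SimpleGraph (Fin n),
      IsSaturated (Set.Icc 4 r) G ∧ G.edgeSet.ncard = k} :=
    ⟨gr r m n hr, isSaturated_gr hr h1 h2, rfl⟩
  exact (Nat.sInf_le hmem).trans (edges_le hr h1 h2)

/-- **Disproof of the conjecture `sat(n, C_[4,r]) = ⌈5n/4 - 3/2⌉` for every `r ≥ 6`.**
For every `r ≥ 6` and every `n ≥ r + 3` there are `C_[4,r]`-saturated graphs on `n` vertices and
`sat(n, C_[4,r]) ≤ n + ⌈(n - r - 1)/4⌉`; consequently `sat(n, C_[4,r]) < ⌈5n/4 - 3/2⌉` for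
infinitely many `n`. -/
theorem result (r : ℕ) (hr : 6 ≤ r) :
    (∀ n : ℕ, r + 3 ≤ n →
      (∃ G : SimpleGraph (Fin n), IsSaturated (Set.Icc 4 r) G) ∧
      (sat n (Set.Icc 4 r) : ℤ) ≤ n + ⌈((n : ℝ) - r - 1) / 4⌉) ∧
    {n : ℕ | (sat n (Set.Icc 4 r) : ℤ) < ⌈5 * (n : ℝ) / 4 - 3 / 2⌉}.Infinite := by
  constructor
  · intro n hn
    obtain ⟨m, hm1, hm2, hm3⟩ : ∃ m, r + 1 + 2 * m ≤ n ∧ n ≤ r + 1 + 4 * m ∧
        4 * m < (n - r - 1) + 4 := ⟨(n - r + 2) / 4, by omega, by omega, by omega⟩
    refine ⟨⟨gr r m n hr, isSaturated_gr hr hm1 hm2⟩, ?_⟩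
    have h := sat_le hr hm1 hm2
    have hm4 : (m : ℤ) ≤ ⌈((n : ℝ) - r - 1) / 4⌉ := by
      have : ((m : ℤ) - 1) < ⌈((n : ℝ) - r - 1) / 4⌉ := by
        rw [Int.lt_ceil]
        push_cast
        have hm3' : 4 * m + r + 1 < n + 4 := by omega
        have hm3'' : (4 : ℝ) * m + r + 1 < n + 4 := by exact_mod_cast hm3'
        rw [lt_div_iff₀ (by norm_num)]
        linarith
      omega
    have h' : (sat n (Set.Icc 4 r) : ℤ) ≤ n + m := by exact_mod_cast h
    linarith
  · rw [Set.infinite_iff_exists_gt]
    intro N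
    refine ⟨r + 1 + 4 * (N + 1), ?_, by omega⟩
    have h := sat_le (m := N + 1) (n := r + 1 + 4 * (N + 1)) hr (by omega) (by omega)
    have h' : (sat (r + 1 + 4 * (N + 1)) (Set.Icc 4 r) : ℤ) ≤
        ((r + 1 + 4 * (N + 1) + (N + 1) : ℕ) : ℤ) := by exact_mod_cast h
    refine lt_of_le_of_lt h' ?_
    rw [Int.lt_ceil]
    push_cast
    have hr' : (6 : ℝ) ≤ r := by exact_mod_cast hr
    linarith

end Pool.Agent.Results.MP_50682e_co.CycleFamilySat
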